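import Pool.Agent.Helper60.MV.DefsC

/-!
Project MV, block N: the polynomial volume of a type with odd sum is zero.
-/

namespace Pool.Agent.Helper29.MVN

open Finset Pool.Agent.Helper60.MV

theorem pfL_eq_zero {α R : Type} [CommRing R] (A : α → α → R) (w : α → ℤ)
    (hA : ∀ a b, A a b ≠ 0 → w a + w b = 0) :
    ∀ (n : ℕ) (L : List α), L.length = n → (L.map w).sum ≠ 0 → pfL A L = 0 := by
  intro n
  induction n using Nat.strong_induction_on with
  | _ n ih =>
    intro L hL hs
    match L with
    | [] => exact absurd rfl hs
    | x :: xs =>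
      rw [pfL]
      apply Finset.sum_eq_zero
      intro j _
      by_cases hz : A x (xs.get j) = 0
      · rw [hz]; ring
      · have h1 := hA _ _ hz
        have hj : (j : ℕ) < (xs.map w).length := by
          rw [List.length_map]; exact j.2
        have h2 : (xs.map w)[(j : ℕ)] + ((xs.map w).eraseIdx j).sum = (xs.map w).sum :=
          List.add_sum_eraseIdx hj (fun _ _ => AddCommute.all _ _)
        rw [List.getElem_map] at h2
        have h3 : (xs.map w).eraseIdx j = (xs.eraseIdx j).map w := by
          rw [List.eraseIdx_map]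
        rw [h3] at h2
        have h4 : pfL A (xs.eraseIdx j) = 0 := by
          apply ih (xs.eraseIdx j).length _ _ rfl
          · intro h5
            apply hs
            rw [List.map_cons, List.sum_cons, ← h2, h5, add_zero]
            exact h1
          · rw [← hL, List.length_cons, List.length_eraseIdx]
            split_ifs <;> omega
        rw [h4, mul_zero]

theorem XK_odd {ρ : Type} [Fintype ρ] (K : ρ → ℕ) (h : Odd (∑ i, K i)) (S : List ℕ) :
    XK K S = 0 := by
  classical
  unfold XK
  apply Finset.sum_eq_zero
  intro f _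
  apply pfL_eq_zero _ (fun a => (asg K f a : ℤ) - 2 * (S.get a : ℤ)) _ _ _ rfl
  · rw [← List.ofFn_eq_map, List.sum_ofFn, Finset.sum_sub_distrib, ← Finset.mul_sum]
    have h1 : ∑ a, (asg K f a : ℤ) = ((∑ i, K i : ℕ) : ℤ) := by
      rw [← Nat.cast_sum]
      congr 1
      unfold asg
      rw [Finset.sum_comm]
      refine Finset.sum_congr rfl (fun i _ => ?_)
      rw [Finset.sum_ite_eq]
      simp
    rw [h1]
    obtain ⟨k, hk⟩ := h
    rw [hk]
    push_cast
    omega
  · intro a b hab
    by_contra hne
    apply hab
    unfold zf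
    rw [if_neg hne]

theorem Ypoly_odd {ρ : Type} [Fintype ρ] (K : ρ → ℕ) (h : Odd (∑ i, K i)) : Ypoly K = 0 := by
  have h1 : Rpoly K = 0 := by
    unfold Rpoly
    apply Finset.sum_eq_zero
    intro S _
    rw [XK_odd K h]
    simp
  rw [Ypoly, h1, Wick]
  simp

end Pool.Agent.Helper29.MVN
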