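import Pool.Agent.Helper29.MVN.Hyp
import Pool.Agent.Helper29.MVN.OddSum

/-!
Project MV, block N: bounds of the polynomial volumes, of the AA sum; monotonicity of `UB`.
-/

namespace Pool.Agent.Helper29.MVN

open Finset Filter Topology Pool.Agent.Helper60.MV

theorem bE_pos (E : ℕ) : 0 < bE E := by
  unfold bE
  positivity

/-- cube root of `E` -/
noncomputable def c3 (E : ℕ) : ℝ := (E : ℝ) ^ (1 / 3 : ℝ)

theorem c3_nonneg (E : ℕ) : 0 ≤ c3 E := by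
  unfold c3
  positivity

theorem one_le_c3 {E : ℕ} (h : 1 ≤ E) : 1 ≤ c3 E := by
  unfold c3
  exact Real.one_le_rpow (by exact_mod_cast h) (by norm_num)

theorem c3_mono {E E' : ℕ} (h : E ≤ E') : c3 E ≤ c3 E' := by
  unfold c3
  exact Real.rpow_le_rpow (by positivity) (by exact_mod_cast h) (by norm_num)

theorem c3_div_tendsto : Tendsto (fun E : ℕ => c3 E / (E : ℝ)) atTop (𝓝 0) := by
  have h1 : Tendsto (fun E : ℕ => ((E : ℝ)) ^ (-(2 / 3) : ℝ)) atTop (𝓝 0) :=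
    (tendsto_rpow_neg_atTop (by norm_num)).comp tendsto_natCast_atTop_atTop
  refine h1.congr' ?_
  filter_upwards [eventually_ge_atTop 1] with E hE
  have hE' : (0 : ℝ) < E := by exact_mod_cast hE
  unfold c3
  rw [eq_div_iff hE'.ne']
  nth_rewrite 2 [← Real.rpow_one (E : ℝ)]
  rw [← Real.rpow_add hE']
  norm_num

theorem mainE_bd (H : Hyp) : ∃ C : ℝ, 0 < C ∧ ∀ E, |mainE E| ≤ C * bE E := by
  have h1 := H.mainE_even.abs.bddAbove_range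
  obtain ⟨C, hC⟩ := h1
  refine ⟨max C 1, by positivity, fun E => ?_⟩
  have hb := bE_pos E
  rcases Nat.even_or_odd E with h | h
  · obtain ⟨e, he⟩ := h
    have h2 : |mainE (2 * e) / bE (2 * e)| ≤ C := hC ⟨e, rfl⟩
    have h3 : E = 2 * e := by omega
    rw [← h3, abs_div, abs_of_pos hb, div_le_iff₀ hb] at h2
    exact h2.trans (mul_le_mul_of_nonneg_right (le_max_left _ _) hb.le)
  · rw [H.mainE_odd E h, abs_zero]
    positivity

theorem Ypoly_bd (H : Hyp) (M : ℕ) : ∃ C : ℝ, 1 ≤ C ∧ ∀ (k : ℕ) {ρ : Type} [Fintype ρ] (K : ρ → ℕ)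
    (_ : ∀ i, Odd (K i)) (E : ℕ) (_ : ∑ i, K i = 2 * E) (_ : 1 ≤ E) (_ : ones K ≤ M + k),
    |Ypoly K| ≤ C * (C * c3 E) ^ k * bE E := by
  obtain ⟨C, hC, h⟩ := H.blockU M
  obtain ⟨Cm, hCm, hm⟩ := mainE_bd H
  refine ⟨C + Cm + 1, by linarith, ?_⟩
  intro k ρ _ K hK E hE hE1 ho
  have h1 := h k K hK E hE hE1 ho
  have h2 := hm E
  have hb := bE_pos E
  have hc := one_le_c3 hE1
  have h3 : |Ypoly K| ≤ |Ypoly K - mainE E| + |mainE E| := by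
    have := abs_add_le (Ypoly K - mainE E) (mainE E)
    rwa [sub_add_cancel] at this
  have hx : 1 ≤ (C + Cm + 1) * c3 E := by nlinarith
  have h4 : (C * (E : ℝ) ^ (1 / 3 : ℝ)) ^ k ≤ ((C + Cm + 1) * c3 E) ^ k := by
    apply pow_le_pow_left₀ (by positivity)
    unfold c3 at hc ⊢
    nlinarith
  have h5 : (E : ℝ) ^ (-(1 / 2) : ℝ) ≤ 1 :=
    Real.rpow_le_one_of_one_le_of_nonpos (by exact_mod_cast hE1) (by norm_num)
  have h6 : (1 : ℝ) ≤ ((C + Cm + 1) * c3 E) ^ k := one_le_pow₀ hx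
  have h7 : C * (C * (E : ℝ) ^ (1 / 3 : ℝ)) ^ k * (E : ℝ) ^ (-(1 / 2) : ℝ) * bE E
      ≤ C * ((C + Cm + 1) * c3 E) ^ k * bE E := by
    apply mul_le_mul_of_nonneg_right _ hb.le
    calc C * (C * (E : ℝ) ^ (1 / 3 : ℝ)) ^ k * (E : ℝ) ^ (-(1 / 2) : ℝ)
        ≤ C * (C * (E : ℝ) ^ (1 / 3 : ℝ)) ^ k * 1 :=
          mul_le_mul_of_nonneg_left h5 (by positivity)
      _ = C * (C * (E : ℝ) ^ (1 / 3 : ℝ)) ^ k := mul_one _
      _ ≤ C * ((C + Cm + 1) * c3 E) ^ k := mul_le_mul_of_nonneg_left h4 hC.le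
  have h8 : Cm * bE E ≤ Cm * ((C + Cm + 1) * c3 E) ^ k * bE E := by
    apply mul_le_mul_of_nonneg_right _ hb.le
    nlinarith
  have h9 : 0 ≤ ((C + Cm + 1) * c3 E) ^ k * bE E := by positivity
  nlinarith

theorem AAc_bd (H : Hyp) : ∃ C : ℝ, 0 < C ∧ ∀ {ρ : Type} [Fintype ρ] (K : ρ → ℕ) (_ : ∀ i, Odd (K i))
    (E : ℕ) (_ : ∑ i, K i = 2 * E) (_ : 1 ≤ E),
    AAc K ≤ C * ((E : ℝ) * (19 / 20) ^ E) * bE E := by
  obtain ⟨C, hC, h⟩ := H.AAc_le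
  refine ⟨C, hC, ?_⟩
  intro ρ _ K hK E hE hE1
  refine (h K hK E hE hE1).trans (le_of_eq ?_)
  unfold bE
  obtain ⟨n, rfl⟩ : ∃ n, E = n + 1 := ⟨E - 1, by omega⟩
  rw [Nat.factorial_succ, Nat.add_sub_cancel]
  have : ((19 : ℝ) / 10) ^ (n + 1) = (19 / 20) ^ (n + 1) * 2 ^ (n + 1) := by
    rw [← mul_pow]; norm_num
  rw [this]
  push_cast
  ring

theorem geo_tendsto : Tendsto (fun E : ℕ => (E : ℝ) * (19 / 20) ^ E) atTop (𝓝 0) :=
  tendsto_self_mul_const_pow_of_lt_one (by norm_num) (by norm_num)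

theorem AAc_bd' (H : Hyp) : ∃ C : ℝ, 0 < C ∧ ∀ {ρ : Type} [Fintype ρ] (K : ρ → ℕ) (_ : ∀ i, Odd (K i))
    (E : ℕ) (_ : ∑ i, K i = 2 * E) (_ : 1 ≤ E), AAc K ≤ C * bE E := by
  obtain ⟨C, hC, h⟩ := AAc_bd H
  obtain ⟨D, hD⟩ := geo_tendsto.bddAbove_range
  refine ⟨C * max D 1, by positivity, ?_⟩
  intro ρ _ K hK E hE hE1
  refine (h K hK E hE hE1).trans ?_
  have h1 : (E : ℝ) * (19 / 20) ^ E ≤ D := hD ⟨E, rfl⟩
  have hb := bE_pos E
  apply mul_le_mul_of_nonneg_right _ hb.le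
  apply mul_le_mul_of_nonneg_left _ hC.le
  exact h1.trans (le_max_left _ _)

theorem UB_mono {ρ : Type} [Fintype ρ] {K : ρ → ℕ} {B B' : ℝ} (h : UB K B) (hB : B ≤ B') :
    UB K B' := by
  intro C hC δ hδ
  filter_upwards [h C hC δ hδ] with ε h1 ξ h2 h3
  exact (h1 ξ h2 h3).trans (by linarith)

end Pool.Agent.Helper29.MVN
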