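import Pool.Agent.Helper29.MVN.Bd

/-!
Project MV, block N: the disconnected configurations.
-/

namespace Pool.Agent.Helper29.MVN

open Finset Filter Topology Pool.Agent.Helper60.MV

/-! ### binomial coefficients -/

theorem choose_mono_half {n c j : ℕ} (h1 : c ≤ j) (h2 : j ≤ n / 2) : n.choose c ≤ n.choose j := by
  induction j, h1 using Nat.le_induction with
  | base => exact le_refl _
  | succ j _ ih => exact (ih (by omega)).trans (Nat.choose_le_succ_of_lt_half_left (by omega))

theorem choose_two_le {A r : ℕ} (h1 : 2 ≤ r) (h2 : r + 2 ≤ A) : A.choose 2 ≤ A.choose r := by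
  rcases Nat.lt_or_ge (A / 2) r with h | h
  · rw [← Nat.choose_symm (show r ≤ A by omega)]
    exact choose_mono_half (by omega) (by omega)
  · exact choose_mono_half h1 h

/-- `(e-1)! (E-e-1)! binom(N,j) binom(A,r) ≤ (E-2)!` -/
theorem vand {E e N A j r : ℕ} (h1 : 1 ≤ e) (h2 : e + 1 ≤ E) (hN : N + A = E - 2)
    (hj : j + r = e - 1) :
    (e - 1).factorial * (E - e - 1).factorial * (N.choose j * A.choose r) ≤ (E - 2).factorial := by
  have h3 : N.choose j * A.choose r ≤ (E - 2).choose (e - 1) := by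
    rw [← hN, Nat.add_choose_eq]
    have hm : ((j, r) : ℕ × ℕ) ∈ Finset.HasAntidiagonal.antidiagonal (e - 1) :=
      Finset.HasAntidiagonal.mem_antidiagonal.2 hj
    exact Finset.single_le_sum (f := fun ij : ℕ × ℕ => N.choose ij.1 * A.choose ij.2)
      (fun _ _ => Nat.zero_le _) hm
  have h4 := Nat.choose_mul_factorial_mul_factorial (show e - 1 ≤ E - 2 by omega)
  rw [show E - 2 - (e - 1) = E - e - 1 by omega] at h4
  calc (e - 1).factorial * (E - e - 1).factorial * (N.choose j * A.choose r)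
      ≤ (e - 1).factorial * (E - e - 1).factorial * (E - 2).choose (e - 1) :=
        Nat.mul_le_mul_left _ h3
    _ = (E - 2).factorial := by rw [← h4]; ring

/-- the weight of the sets with sum `2 e` -/
theorem weight_le {E e : ℕ} (hE : 30 ≤ E) (h1 : 1 ≤ e) (h2 : 2 * e ≤ E) :
    (((e - 1).factorial * (E - e - 1).factorial * ((2 * e / 3 + 1) * (2 * E / 3).choose (2 * e / 3))
      : ℕ) : ℝ) ≤ ((if e ≤ 6 then 5 else 0) + 20 / (E : ℝ)) * ((E - 2).factorial : ℝ) := by
  obtain ⟨A, hA⟩ : ∃ A, A = E - 2 - 2 * E / 3 := ⟨_, rfl⟩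
  obtain ⟨r, hr⟩ : ∃ r, r = e - 1 - 2 * e / 3 := ⟨_, rfl⟩
  have h3 := vand (E := E) (e := e) (N := 2 * E / 3) (A := A) (j := 2 * e / 3) (r := r) h1
    (by omega) (by omega) (by omega)
  obtain ⟨X, hX⟩ : ∃ X, X = (e - 1).factorial * (E - e - 1).factorial *
    ((2 * e / 3 + 1) * (2 * E / 3).choose (2 * e / 3)) := ⟨_, rfl⟩
  rw [← hX]
  have h4 : X * A.choose r ≤ (2 * e / 3 + 1) * (E - 2).factorial := by
    calc X * A.choose r = (2 * e / 3 + 1) * ((e - 1).factorial * (E - e - 1).factorial *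
          ((2 * E / 3).choose (2 * e / 3) * A.choose r)) := by rw [hX]; ring
      _ ≤ (2 * e / 3 + 1) * (E - 2).factorial := Nat.mul_le_mul_left _ h3
  have hEr : (30 : ℝ) ≤ E := by exact_mod_cast hE
  have hF : (0 : ℝ) < ((E - 2).factorial : ℝ) := by exact_mod_cast Nat.factorial_pos _
  by_cases h6 : e ≤ 6
  · rw [if_pos h6]
    have h5 : 1 ≤ A.choose r := Nat.choose_pos (by omega)
    have h7 : X ≤ 5 * (E - 2).factorial := by
      calc X = X * 1 := (mul_one _).symm
        _ ≤ X * A.choose r := Nat.mul_le_mul_left _ h5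
        _ ≤ (2 * e / 3 + 1) * (E - 2).factorial := h4
        _ ≤ 5 * (E - 2).factorial := Nat.mul_le_mul_right _ (by omega)
    have h8 : (X : ℝ) ≤ 5 * ((E - 2).factorial : ℝ) := by exact_mod_cast h7
    have h9 : 0 ≤ 20 / (E : ℝ) * ((E - 2).factorial : ℝ) := by positivity
    linarith
  · rw [if_neg h6, zero_add]
    have h5 : A.choose 2 ≤ A.choose r := choose_two_le (by omega) (by omega)
    have h7 : X * A.choose 2 ≤ (2 * e / 3 + 1) * (E - 2).factorial :=
      (Nat.mul_le_mul_left _ h5).trans h4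
    have h8 : (A.choose 2 : ℝ) = A * (A - 1) / 2 := Nat.cast_choose_two ℝ A
    have h9 : (X : ℝ) * (A * (A - 1) / 2) ≤ ((2 * e / 3 + 1 : ℕ) : ℝ) * ((E - 2).factorial : ℝ) := by
      rw [← h8]; exact_mod_cast h7
    have hA1 : (E : ℝ) / 4 ≤ A := by
      have : E ≤ 4 * A := by omega
      have : (E : ℝ) ≤ 4 * A := by exact_mod_cast this
      linarith
    have hA2 : (E : ℝ) / 5 ≤ (A : ℝ) - 1 := by
      have : E + 5 ≤ 5 * A := by omega
      have : (E : ℝ) + 5 ≤ 5 * A := by exact_mod_cast this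
      linarith
    have hj : ((2 * e / 3 + 1 : ℕ) : ℝ) ≤ (E : ℝ) / 2 := by
      have : 2 * (2 * e / 3 + 1) ≤ E := by omega
      have : 2 * ((2 * e / 3 + 1 : ℕ) : ℝ) ≤ (E : ℝ) := by exact_mod_cast this
      linarith
    have h10 : (E : ℝ) ^ 2 / 20 ≤ A * (A - 1) := by nlinarith
    have hX0 : (0 : ℝ) ≤ X := Nat.cast_nonneg _
    have h11 : (X : ℝ) * ((E : ℝ) ^ 2 / 40) ≤ (E : ℝ) / 2 * ((E - 2).factorial : ℝ) := by
      calc (X : ℝ) * ((E : ℝ) ^ 2 / 40) ≤ X * (A * (A - 1) / 2) := by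
            apply mul_le_mul_of_nonneg_left _ hX0; linarith
        _ ≤ ((2 * e / 3 + 1 : ℕ) : ℝ) * ((E - 2).factorial : ℝ) := h9
        _ ≤ (E : ℝ) / 2 * ((E - 2).factorial : ℝ) := mul_le_mul_of_nonneg_right hj hF.le
    have hE0 : (0 : ℝ) < E := by linarith
    rw [div_mul_eq_mul_div, le_div_iff₀ hE0]
    have h12 : (X : ℝ) * E * (E / 40) ≤ 20 * ((E - 2).factorial : ℝ) * (E / 40) := by nlinarith
    exact le_of_mul_le_mul_right h12 (by positivity)

/-! ### counting the subsets with given sum -/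

theorem count_le {ρ : Type} [Fintype ρ] [DecidableEq ρ] {K : ρ → ℕ} (hK : ∀ i, Odd (K i)) {E M : ℕ}
    (hE : ∑ i, K i = 2 * E) (ho : ones K ≤ M) {e : ℕ} (h2 : 2 * e ≤ E) :
    ((univ : Finset (Finset ρ)).filter (fun I => ∑ i ∈ I, K i = 2 * e)).card ≤
      2 ^ M * ((2 * e / 3 + 1) * (2 * E / 3).choose (2 * e / 3)) := by
  classical
  let O : Finset ρ := univ.filter (fun i => K i = 1)
  let O' : Finset ρ := univ.filter (fun i => K i ≠ 1)
  have hO : O.card ≤ M := by
    refine le_trans (le_of_eq ?_) ho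
    unfold ones
    rfl
  have hsum3 : ∀ J ⊆ O', 3 * J.card ≤ ∑ i ∈ J, K i := by
    intro J hJ
    rw [mul_comm, ← smul_eq_mul, ← Finset.sum_const]
    apply Finset.sum_le_sum
    intro i hi
    have h3 : K i ≠ 1 := (mem_filter.1 (hJ hi)).2
    obtain ⟨a, ha⟩ := hK i
    omega
  have hO' : O'.card ≤ 2 * E / 3 := by
    have h3 := hsum3 O' (subset_refl _)
    have h4 : ∑ i ∈ O', K i ≤ 2 * E := by
      rw [← hE]
      exact Finset.sum_le_sum_of_subset (subset_univ _)
    omega
  let T : Finset (Finset ρ × Finset ρ) :=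
    O.powerset ×ˢ ((Finset.range (2 * e / 3 + 1)).biUnion (fun c => O'.powersetCard c))
  have h3 : ((univ : Finset (Finset ρ)).filter (fun I => ∑ i ∈ I, K i = 2 * e)).card ≤ T.card := by
    apply card_le_card_of_injOn (fun I => (I ∩ O, I ∩ O'))
    · intro I hI
      rw [mem_coe, mem_filter] at hI
      rw [mem_coe, mem_product]
      refine ⟨mem_powerset.2 inter_subset_right, ?_⟩
      rw [mem_biUnion]
      refine ⟨(I ∩ O').card, ?_, ?_⟩
      · rw [mem_range]
        have h4 := hsum3 (I ∩ O') inter_subset_right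
        have h5 : ∑ i ∈ I ∩ O', K i ≤ ∑ i ∈ I, K i :=
          Finset.sum_le_sum_of_subset inter_subset_left
        omega
      · rw [mem_powersetCard]
        exact ⟨inter_subset_right, rfl⟩
    · intro I _ J _ h
      obtain ⟨e1, e2⟩ := Prod.mk.inj h
      ext i
      by_cases hi : K i = 1
      · have hO1 : i ∈ O := mem_filter.2 ⟨mem_univ _, hi⟩
        have : i ∈ I ∩ O ↔ i ∈ J ∩ O := by rw [e1]
        simpa [mem_inter, hO1] using this
      · have hO1 : i ∈ O' := mem_filter.2 ⟨mem_univ _, hi⟩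
        have : i ∈ I ∩ O' ↔ i ∈ J ∩ O' := by rw [e2]
        simpa [mem_inter, hO1] using this
  refine h3.trans ?_
  rw [card_product, card_powerset]
  apply Nat.mul_le_mul
  · exact Nat.pow_le_pow_right (by norm_num) hO
  · refine card_biUnion_le.trans ?_
    refine (Finset.sum_le_card_nsmul _ _ ((2 * E / 3).choose (2 * e / 3)) ?_).trans ?_
    · intro c hc
      rw [mem_range] at hc
      rw [card_powersetCard]
      exact (Nat.choose_le_choose c hO').trans (choose_mono_half (by omega) (by omega))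
    · rw [card_range, smul_eq_mul]

end Pool.Agent.Helper29.MVN
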