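import Pool.Agent.Helper29.MVN.Disc

/-!
Project MV, block N: the bound of the disconnected configurations.
-/

namespace Pool.Agent.Helper29.MVN

open Finset Filter Topology Pool.Agent.Helper60.MV

theorem sum_sub {ρ : Type} (I : Finset ρ) [inst : Fintype {i // i ∈ I}] (K : ρ → ℕ) :
    ∑ i : {i // i ∈ I}, K i = ∑ i ∈ I, K i := by
  have h : inst = Finset.fintypeCoeSort I := Subsingleton.elim _ _
  subst h
  exact Finset.sum_coe_sort I K

theorem ones_sub {ρ : Type} [Fintype ρ] (I : Finset ρ) [Fintype {i // i ∈ I}] (K : ρ → ℕ) :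
    ones (fun i : {i // i ∈ I} => K i) ≤ ones K := by
  classical
  unfold ones
  apply card_le_card_of_injOn (fun i : {i // i ∈ I} => (i : ρ))
  · intro i hi
    rw [mem_coe, mem_filter] at hi
    rw [mem_coe, mem_filter]
    exact ⟨mem_univ _, hi.2⟩
  · intro i _ j _ h
    exact Subtype.ext h

/-- the number of subsets with sum `2 e` -/
def cnt {ρ : Type} [Fintype ρ] (K : ρ → ℕ) (e : ℕ) : ℕ :=
  ((univ : Finset (Finset ρ)).filter (fun I => ∑ i ∈ I, K i = 2 * e)).card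

theorem cnt_symm {ρ : Type} [Fintype ρ] {K : ρ → ℕ} {E e : ℕ} (hE : ∑ i, K i = 2 * E)
    (he : e ≤ E) : cnt K e ≤ cnt K (E - e) := by
  classical
  unfold cnt
  apply card_le_card_of_injOn (fun I => Iᶜ)
  · intro I hI
    rw [mem_coe, mem_filter] at hI
    rw [mem_coe, mem_filter]
    refine ⟨mem_univ _, ?_⟩
    have h := Finset.sum_add_sum_compl I K
    have h2 := hI.2
    show ∑ i ∈ Iᶜ, K i = 2 * (E - e)
    omega
  · intro I _ J _ h
    exact compl_injective h

theorem cnt_weight {ρ : Type} [Fintype ρ] {K : ρ → ℕ} (hK : ∀ i, Odd (K i)) {E M : ℕ}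
    (hE : ∑ i, K i = 2 * E) (ho : ones K ≤ M) (h30 : 30 ≤ E) {e : ℕ} (h1 : 1 ≤ e)
    (h2 : e + 1 ≤ E) :
    (cnt K e : ℝ) * (((e - 1).factorial * (E - e - 1).factorial : ℕ) : ℝ) ≤
      2 ^ M * (((if e ≤ 6 then 5 else 0) + (if E - e ≤ 6 then 5 else 0) + 20 / (E : ℝ)) *
        ((E - 2).factorial : ℝ)) := by
  classical
  -- the half range
  have key : ∀ e, 1 ≤ e → 2 * e ≤ E →
      (cnt K e : ℝ) * (((e - 1).factorial * (E - e - 1).factorial : ℕ) : ℝ) ≤
      2 ^ M * (((if e ≤ 6 then 5 else 0) + 20 / (E : ℝ)) * ((E - 2).factorial : ℝ)) := by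
    intro e h1 h2
    have h3 := count_le hK hE ho (e := e) h2
    have h4 := weight_le h30 h1 h2
    have h5 : (cnt K e * ((e - 1).factorial * (E - e - 1).factorial)) ≤
        2 ^ M * ((e - 1).factorial * (E - e - 1).factorial *
          ((2 * e / 3 + 1) * (2 * E / 3).choose (2 * e / 3))) := by
      calc cnt K e * ((e - 1).factorial * (E - e - 1).factorial)
          ≤ (2 ^ M * ((2 * e / 3 + 1) * (2 * E / 3).choose (2 * e / 3))) *
            ((e - 1).factorial * (E - e - 1).factorial) := Nat.mul_le_mul_right _ h3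
        _ = _ := by ring
    have h6 : ((cnt K e * ((e - 1).factorial * (E - e - 1).factorial) : ℕ) : ℝ) ≤
        ((2 ^ M * ((e - 1).factorial * (E - e - 1).factorial *
          ((2 * e / 3 + 1) * (2 * E / 3).choose (2 * e / 3))) : ℕ) : ℝ) := by exact_mod_cast h5
    rw [Nat.cast_mul] at h6
    refine h6.trans ?_
    rw [Nat.cast_mul (2 ^ M)]
    push_cast at h4 ⊢
    exact mul_le_mul_of_nonneg_left h4 (by positivity)
  have hF : (0 : ℝ) < ((E - 2).factorial : ℝ) := by exact_mod_cast Nat.factorial_pos _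
  rcases Nat.lt_or_ge E (2 * e) with h3 | h3
  · have h4 := key (E - e) (by omega) (by omega)
    have h5 := cnt_symm hE (show e ≤ E by omega)
    have h5' : (cnt K e : ℝ) ≤ (cnt K (E - e) : ℝ) := by exact_mod_cast h5
    have h6 : (e - 1).factorial * (E - e - 1).factorial =
        (E - e - 1).factorial * (E - (E - e) - 1).factorial := by
      rw [show E - (E - e) - 1 = e - 1 by omega]; ring
    rw [h6]
    refine (mul_le_mul_of_nonneg_right h5' (Nat.cast_nonneg _)).trans (h4.trans ?_)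
    apply mul_le_mul_of_nonneg_left _ (by positivity)
    apply mul_le_mul_of_nonneg_right _ hF.le
    have : (0 : ℝ) ≤ (if e ≤ 6 then 5 else 0) := by split_ifs <;> norm_num
    linarith
  · refine (key e h1 h3).trans ?_
    apply mul_le_mul_of_nonneg_left _ (by positivity)
    apply mul_le_mul_of_nonneg_right _ hF.le
    have : (0 : ℝ) ≤ (if E - e ≤ 6 then 5 else 0) := by split_ifs <;> norm_num
    linarith

theorem sum_small {E : ℕ} (h30 : 30 ≤ E) :
    ∑ e ∈ Icc 1 (E - 1), (((if e ≤ 6 then 5 else 0) + (if E - e ≤ 6 then 5 else 0) +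
      20 / (E : ℝ)) : ℝ) ≤ 80 := by
  have hEr : (30 : ℝ) ≤ E := by exact_mod_cast h30
  rw [sum_add_distrib, sum_add_distrib, ← sum_filter, ← sum_filter, sum_const, sum_const, sum_const,
    Nat.card_Icc, nsmul_eq_mul, nsmul_eq_mul, nsmul_eq_mul]
  have h1 : ((Icc 1 (E - 1)).filter (fun e => e ≤ 6)).card ≤ 6 := by
    refine (card_le_card (t := Icc 1 6) ?_).trans (by simp)
    intro e he
    rw [mem_filter, mem_Icc] at he
    rw [mem_Icc]
    omega
  have h2 : ((Icc 1 (E - 1)).filter (fun e => E - e ≤ 6)).card ≤ 6 := by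
    refine (card_le_card (t := Icc (E - 6) (E - 1)) ?_).trans ?_
    · intro e he
      rw [mem_filter, mem_Icc] at he
      rw [mem_Icc]
      omega
    · rw [Nat.card_Icc]; omega
  have h3 : ((E - 1 + 1 - 1 : ℕ) : ℝ) * (20 / (E : ℝ)) ≤ 20 := by
    have : ((E - 1 + 1 - 1 : ℕ) : ℝ) ≤ E := by
      have : E - 1 + 1 - 1 ≤ E := by omega
      exact_mod_cast this
    rw [mul_div_assoc', div_le_iff₀ (by linarith)]
    nlinarith
  have h1' : (((Icc 1 (E - 1)).filter (fun e => e ≤ 6)).card : ℝ) ≤ 6 := by exact_mod_cast h1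
  have h2' : (((Icc 1 (E - 1)).filter (fun e => E - e ≤ 6)).card : ℝ) ≤ 6 := by exact_mod_cast h2
  linarith

theorem disc_term {M : ℕ} {C : ℝ} (hC1 : 1 ≤ C)
    (hC : ∀ (k : ℕ) {ρ : Type} [Fintype ρ] (K : ρ → ℕ)
    (_ : ∀ i, Odd (K i)) (E : ℕ) (_ : ∑ i, K i = 2 * E) (_ : 1 ≤ E) (_ : ones K ≤ M + k),
    |Ypoly K| ≤ C * (C * c3 E) ^ k * bE E)
    {ρ : Type} [Fintype ρ] {K : ρ → ℕ} (hK : ∀ i, Odd (K i)) {E : ℕ}
    (hE : ∑ i, K i = 2 * E) (ho : ones K ≤ M) (I J : Finset ρ) (hI : I.Nonempty) (hJ : J.Nonempty)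
    (hIJ : ∑ i ∈ I, K i + ∑ i ∈ J, K i = ∑ i, K i) [Fintype {i // i ∈ I}] [Fintype {i // i ∈ J}] :
    |Ypoly (fun i : {i // i ∈ I} => K i) * Ypoly (fun i : {i // i ∈ J} => K i)| ≤
      ∑ e ∈ Icc 1 (E - 1), if ∑ i ∈ I, K i = 2 * e then
        C ^ 2 * (2 ^ E * (((e - 1).factorial * (E - e - 1).factorial : ℕ) : ℝ)) else 0 := by
  have hnn : ∀ e ∈ Icc 1 (E - 1), (0 : ℝ) ≤ if ∑ i ∈ I, K i = 2 * e then
        C ^ 2 * (2 ^ E * (((e - 1).factorial * (E - e - 1).factorial : ℕ) : ℝ)) else 0 := by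
    intro e _
    split_ifs <;> positivity
  rcases Nat.even_or_odd (∑ i ∈ I, K i) with hev | hodd
  · obtain ⟨e, he⟩ := hev
    have hpos : ∀ L : Finset ρ, L.Nonempty → 0 < ∑ i ∈ L, K i := by
      intro L hL
      exact Finset.sum_pos (fun i _ => (hK i).pos) hL
    have h1 := hpos I hI
    have h2 := hpos J hJ
    have he2 : ∑ i ∈ I, K i = 2 * e := by omega
    have hf2 : ∑ i ∈ J, K i = 2 * (E - e) := by omega
    have b1 := hC 0 (fun i : {i // i ∈ I} => K i) (fun i => hK i) e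
      (by rw [sum_sub, he2]) (by omega) ((ones_sub I K).trans ho)
    have b2 := hC 0 (fun i : {i // i ∈ J} => K i) (fun i => hK i) (E - e)
      (by rw [sum_sub, hf2]) (by omega) ((ones_sub J K).trans ho)
    rw [pow_zero, mul_one] at b1 b2
    have hm : e ∈ Icc 1 (E - 1) := by rw [mem_Icc]; omega
    refine le_trans ?_ (Finset.single_le_sum hnn hm)
    rw [if_pos he2, abs_mul]
    have hb1 := bE_pos e
    calc |Ypoly (fun i : {i // i ∈ I} => K i)| * |Ypoly (fun i : {i // i ∈ J} => K i)|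
        ≤ (C * bE e) * (C * bE (E - e)) :=
          mul_le_mul b1 b2 (abs_nonneg _) (by positivity)
      _ = C ^ 2 * (2 ^ E * (((e - 1).factorial * (E - e - 1).factorial : ℕ) : ℝ)) := by
          unfold bE
          have : (2 : ℝ) ^ E = 2 ^ e * 2 ^ (E - e) := by
            rw [← pow_add]; congr 1; omega
          rw [this]
          push_cast
          ring
  · rw [Ypoly_odd (fun i : {i // i ∈ I} => K i) (by rw [sum_sub]; exact hodd), zero_mul, abs_zero]
    exact Finset.sum_nonneg hnn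

theorem disc_le (H : Hyp) (M : ℕ) : ∃ C : ℝ, 0 < C ∧ ∀ {ρ : Type} [Fintype ρ] (K : ρ → ℕ)
    (_ : ∀ i, Odd (K i)) (E : ℕ) (_ : ∑ i, K i = 2 * E) (_ : 30 ≤ E) (_ : ones K ≤ M),
    |disc K| ≤ C / ((E : ℝ) - 1) * bE E := by
  obtain ⟨C, hC1, hC⟩ := Ypoly_bd H M
  refine ⟨C ^ 2 * (2 ^ M * 80), by positivity, ?_⟩
  intro ρ _ K hK E hE h30 ho
  classical
  have h1 : |disc K| ≤ ∑ I : Finset ρ, ∑ e ∈ Icc 1 (E - 1), if ∑ i ∈ I, K i = 2 * e then
        C ^ 2 * (2 ^ E * (((e - 1).factorial * (E - e - 1).factorial : ℕ) : ℝ)) else 0 := by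
    unfold disc
    refine (Finset.abs_sum_le_sum_abs _ _).trans ?_
    refine (Finset.sum_le_sum (fun I hI => ?_)).trans
      (Finset.sum_le_sum_of_subset_of_nonneg (subset_univ _) ?_)
    · rw [mem_filter] at hI
      exact disc_term hC1 hC hK hE ho I _ hI.2.1 hI.2.2 (Finset.sum_add_sum_compl I K)
    · intro I _ _
      apply Finset.sum_nonneg
      intro e _
      split_ifs <;> positivity
  refine h1.trans ?_
  rw [Finset.sum_comm]
  have h2 : ∀ e ∈ Icc 1 (E - 1), (∑ I : Finset ρ, if ∑ i ∈ I, K i = 2 * e then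
        C ^ 2 * (2 ^ E * (((e - 1).factorial * (E - e - 1).factorial : ℕ) : ℝ)) else 0) ≤
      C ^ 2 * 2 ^ E * 2 ^ M * ((E - 2).factorial : ℝ) *
        (((if e ≤ 6 then 5 else 0) + (if E - e ≤ 6 then 5 else 0) + 20 / (E : ℝ)) : ℝ) := by
    intro e he
    rw [mem_Icc] at he
    rw [← Finset.sum_filter, Finset.sum_const, nsmul_eq_mul]
    have h3 := cnt_weight hK hE ho h30 (e := e) he.1 (by omega)
    unfold cnt at h3
    have h4 := mul_le_mul_of_nonneg_left h3 (show (0 : ℝ) ≤ C ^ 2 * 2 ^ E by positivity)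
    refine le_trans (le_of_eq ?_) (h4.trans (le_of_eq ?_))
    · ring
    · ring
  refine (Finset.sum_le_sum h2).trans ?_
  rw [← Finset.mul_sum]
  have hEr : (30 : ℝ) ≤ E := by exact_mod_cast h30
  have hE1 : (0 : ℝ) < (E : ℝ) - 1 := by linarith
  have hfac : ((E - 1).factorial : ℝ) = ((E : ℝ) - 1) * ((E - 2).factorial : ℝ) := by
    obtain ⟨n, hn⟩ : ∃ n, E = n + 2 := ⟨E - 2, by omega⟩
    rw [hn, show n + 2 - 1 = n + 1 by omega, show n + 2 - 2 = n by omega, Nat.factorial_succ]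
    push_cast
    ring
  have h5 : C ^ 2 * (2 ^ M * 80) / ((E : ℝ) - 1) * bE E =
      C ^ 2 * 2 ^ E * 2 ^ M * ((E - 2).factorial : ℝ) * 80 := by
    unfold bE
    rw [hfac]
    field_simp
  rw [h5]
  exact mul_le_mul_of_nonneg_left (sum_small h30) (by positivity)

end Pool.Agent.Helper29.MVN
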