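import Pool.Agent.Helper29.MVN.LeafSum

/-!
Project MV, block N: the induction for the upper bounds `UB`.
-/

namespace Pool.Agent.Helper29.MVN

open Finset Filter Topology Pool.Agent.Helper60.MV

section red

variable {ρ : Type} [Fintype ρ] {K : ρ → ℕ}

theorem red_self (i : ρ) (m : ℕ) : red K i m i = K i - (2 * m + 2) := by
  classical
  unfold red
  simp

theorem red_ne {i j : ρ} (h : j ≠ i) (m : ℕ) : red K i m j = K j := by
  classical
  unfold red
  simp [h]

theorem red_odd (hK : ∀ i, Odd (K i)) {i : ρ} {m : ℕ} (h : 2 * m + 2 < K i) (j : ρ) :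
    Odd (red K i m j) := by
  by_cases hj : j = i
  · subst hj
    rw [red_self]
    obtain ⟨a, ha⟩ := hK j
    exact ⟨a - (m + 1), by omega⟩
  · rw [red_ne hj]; exact hK j

theorem red_sum {E : ℕ} (hE : ∑ i, K i = 2 * E) {i : ρ} {m : ℕ} (h : 2 * m + 2 < K i) :
    ∑ j, red K i m j = 2 * (E - (m + 1)) := by
  classical
  have h1 : K i + ∑ j ∈ univ.erase i, K j = 2 * E := by
    rw [← hE, Finset.add_sum_erase _ _ (mem_univ i)]
  have h2 : red K i m i + ∑ j ∈ univ.erase i, red K i m j = ∑ j, red K i m j :=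
    Finset.add_sum_erase _ _ (mem_univ i)
  have h3 : ∑ j ∈ univ.erase i, red K i m j = ∑ j ∈ univ.erase i, K j :=
    Finset.sum_congr rfl (fun j hj => red_ne (Finset.ne_of_mem_erase hj) m)
  rw [← h2, h3, red_self]
  omega

theorem red_ones {i : ρ} {m : ℕ} (h : 2 * m + 2 < K i) :
    ones (red K i m) ≤ ones K + if K i = 2 * m + 3 then 1 else 0 := by
  classical
  unfold ones
  have hsub : (univ.filter (fun j => red K i m j = 1)) ⊆
      (univ.filter (fun j => K j = 1)) ∪ (if K i = 2 * m + 3 then {i} else ∅) := by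
    intro j hj
    rw [mem_filter] at hj
    rw [mem_union]
    by_cases hji : j = i
    · right
      subst hji
      rw [red_self] at hj
      have : K j = 2 * m + 3 := by omega
      rw [if_pos this]
      exact mem_singleton_self _
    · left
      rw [red_ne hji] at hj
      rw [mem_filter]
      exact hj
  refine (card_le_card hsub).trans ((card_union_le _ _).trans ?_)
  split_ifs <;> simp

end red

/-- the induction statement -/
def PN (M : ℕ) (D : ℝ) (n : ℕ) (a : ℝ) : Prop :=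
  ∀ (E : ℕ), 1 ≤ E → E ≤ n → ∀ (k : ℕ) {ρ : Type} [Fintype ρ] (K : ρ → ℕ),
    (∀ i, Odd (K i)) → ∑ i, K i = 2 * E → ones K ≤ M + k →
    UB K (a * (D * c3 E) ^ k * bE E)

theorem card_two {ρ : Type} [Fintype ρ] {K : ρ → ℕ} {E : ℕ} (hK : ∀ i, Odd (K i))
    (hE : ∑ i, K i = 2 * E) (hE1 : 1 ≤ E) : 2 ≤ Fintype.card ρ := by
  classical
  by_contra h
  have h1 : Fintype.card ρ = 0 ∨ Fintype.card ρ = 1 := by omega
  rcases h1 with h1 | h1
  · haveI := Fintype.card_eq_zero_iff.1 h1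
    rw [Finset.univ_eq_empty, Finset.sum_empty] at hE
    omega
  · obtain ⟨i, hi⟩ := Fintype.card_eq_one_iff.1 h1
    have h2 := K_le hK hE i
    have h3 : ∑ j, K j = K i := by
      rw [Finset.sum_eq_single i]
      · intro j _ hj; exact absurd (hi j) hj
      · intro h; exact absurd (mem_univ i) h
    omega

theorem PN_mono {M : ℕ} {D : ℝ} {n : ℕ} {a a' : ℝ} (hD : 0 ≤ D) (h : PN M D n a) (ha : a ≤ a') :
    PN M D n a' := by
  intro E h1 h2 k ρ _ K hK hE ho
  refine UB_mono (h E h1 h2 k K hK hE ho) ?_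
  have := c3_nonneg E
  have hb := bE_pos E
  apply mul_le_mul_of_nonneg_right _ hb.le
  apply mul_le_mul_of_nonneg_right ha
  positivity

/-- the family of hypotheses of the recursion -/
theorem red_UB (H : Hyp) {M : ℕ} {D a : ℝ} {n : ℕ} (h : PN M D n a) {E : ℕ} (hn : E ≤ n + 1) (hev : Even E)
    {k : ℕ} {ρ : Type} [Fintype ρ] {K : ρ → ℕ} (hK : ∀ i, Odd (K i)) (hE : ∑ i, K i = 2 * E)
    (ho : ones K ≤ M + k) : ∀ i m, 1 ≤ m → 2 * m + 2 < K i →
      UB (red K i m) (BB a D K k E i m) := by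
  intro i m h1 h2
  have h3 := m_le hK hE h2
  unfold BB
  by_cases he : Even (E - (m + 1))
  · rw [if_pos he]
    refine h (E - (m + 1)) (by omega) (by omega) _ (red K i m) (red_odd hK h2) (red_sum hE h2) ?_
    have := red_ones (K := K) (i := i) (m := m) h2
    omega
  · rw [if_neg he]
    exact H.UB_odd (red K i m) (red_odd hK h2) (E - (m + 1)) (red_sum hE h2)
      (Nat.not_even_iff_odd.1 he)

/-- one step -/
theorem PN_step (H : Hyp) {M : ℕ} {D C1 C2 CL : ℝ} (hD : 1 ≤ D) (hC1 : 0 ≤ C1) (hC2 : 0 ≤ C2)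
    (hCL : 0 ≤ CL)
    (hY : ∀ (k : ℕ) {ρ : Type} [Fintype ρ] (K : ρ → ℕ) (_ : ∀ i, Odd (K i)) (E : ℕ)
      (_ : ∑ i, K i = 2 * E) (_ : 1 ≤ E) (_ : ones K ≤ M + k),
      |Ypoly K| ≤ C1 * (D * c3 E) ^ k * bE E)
    (hA : ∀ {ρ : Type} [Fintype ρ] (K : ρ → ℕ) (_ : ∀ i, Odd (K i))
      (E : ℕ) (_ : ∑ i, K i = 2 * E) (_ : 1 ≤ E), AAc K ≤ C2 * bE E)
    (hL : ∀ m, 1 ≤ m → Ypoly (leg m) ≤ CL * bE (m + 1))
    {n : ℕ} {a : ℝ} (ha : 0 ≤ a) (h : PN M D n a) {E : ℕ} (hE1 : 1 ≤ E) (hn : E ≤ n + 1) (k : ℕ)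
    {ρ : Type} [Fintype ρ] (K : ρ → ℕ) (hK : ∀ i, Odd (K i)) (hE : ∑ i, K i = 2 * E)
    (ho : ones K ≤ M + k) :
    UB K ((C1 + C2 + 60 * CL * D * (c3 E / E) * a) * (D * c3 E) ^ k * bE E) := by
  have hc := c3_nonneg E
  have hc1 := one_le_c3 hE1
  have hb := bE_pos E
  have hD0 : 0 ≤ D := by linarith
  have hpow : (1 : ℝ) ≤ (D * c3 E) ^ k := one_le_pow₀ (by nlinarith)
  rcases Nat.even_or_odd E with hev | hodd
  · have h1 := H.C_rec K hK E hE (card_two hK hE hE1) (BB a D K k E)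
      (fun i m => BB_nonneg ha hD0 K k E i m) (red_UB H h hn hev hK hE ho)
    refine UB_mono h1 ?_
    have h2 := (le_abs_self _).trans (hY k K hK E hE hE1 ho)
    have h3 := hA K hK E hE hE1
    have h4 := leaf_le hK hE hCL ha hD hL hev k
    have h5 : C2 * bE E ≤ C2 * (D * c3 E) ^ k * bE E := by
      apply mul_le_mul_of_nonneg_right _ hb.le
      nlinarith
    calc Ypoly K + AAc K + leafSum K (BB a D K k E)
        ≤ C1 * (D * c3 E) ^ k * bE E + C2 * (D * c3 E) ^ k * bE E +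
          (60 * CL * D * (c3 E / E)) * (a * (D * c3 E) ^ k * bE E) := by linarith
      _ = (C1 + C2 + 60 * CL * D * (c3 E / E) * a) * (D * c3 E) ^ k * bE E := by ring
  · refine UB_mono (H.UB_odd K hK E hE hodd) ?_
    positivity

/-- N1 -/
theorem exists_PN (H : Hyp) (M : ℕ) : ∃ D a : ℝ, 1 ≤ D ∧ 0 < a ∧ ∀ n, PN M D n a := by
  obtain ⟨D, hD, hY⟩ := Ypoly_bd H M
  obtain ⟨C2, hC2, hA⟩ := AAc_bd' H
  obtain ⟨CL, hCL, hL'⟩ := Ypoly_bd H 2
  have hL : ∀ m, 1 ≤ m → Ypoly (leg m) ≤ CL * bE (m + 1) := by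
    intro m hm
    have h1 := hL' 0 (leg m) (by
      intro b
      cases b
      · exact ⟨0, rfl⟩
      · exact ⟨m, rfl⟩) (m + 1) (by
      rw [Fintype.sum_bool]
      show (2 * m + 1) + 1 = 2 * (m + 1)
      ring) (by omega) (by
      unfold ones
      exact (card_le_univ _).trans (by simp))
    rw [pow_zero, mul_one] at h1
    exact (le_abs_self _).trans h1
  have hD0 : 0 ≤ D := by linarith
  have hCL0 : 0 ≤ CL := by linarith
  -- crude bound for every `n`
  have hcrude : ∀ n, ∃ a, 0 < a ∧ PN M D n a := by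
    intro n
    induction n with
    | zero => exact ⟨1, one_pos, fun E h1 h2 => absurd h1 (by omega)⟩
    | succ n ih =>
      obtain ⟨a, ha, h⟩ := ih
      refine ⟨D + C2 + 60 * CL * D * a + a, by positivity, ?_⟩
      intro E h1 h2 k ρ _ K hK hE ho
      refine UB_mono (PN_step H hD hD0 hC2.le hCL0 hY hA hL ha.le h h1 h2 k K hK hE ho) ?_
      have hc := c3_nonneg E
      have hb := bE_pos E
      have hEr : (1 : ℝ) ≤ E := by exact_mod_cast h1
      have h3 : c3 E / E ≤ 1 := by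
        rw [div_le_one (by linarith)]
        unfold c3
        calc (E : ℝ) ^ (1 / 3 : ℝ) ≤ (E : ℝ) ^ (1 : ℝ) :=
              Real.rpow_le_rpow_of_exponent_le hEr (by norm_num)
          _ = E := Real.rpow_one _
      apply mul_le_mul_of_nonneg_right _ hb.le
      apply mul_le_mul_of_nonneg_right _ (by positivity)
      have h4 : 60 * CL * D * (c3 E / E) * a ≤ 60 * CL * D * 1 * a := by
        apply mul_le_mul_of_nonneg_right _ ha.le
        exact mul_le_mul_of_nonneg_left h3 (by positivity)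
      linarith
  -- the factor of the leaf term is small for large `E`
  have hlim : ∀ᶠ E : ℕ in atTop, 60 * CL * D * (c3 E / E) ≤ 1 / 2 := by
    have h1 : Tendsto (fun E : ℕ => 60 * CL * D * (c3 E / (E : ℝ))) atTop (𝓝 (60 * CL * D * 0)) :=
      c3_div_tendsto.const_mul _
    rw [mul_zero] at h1
    exact h1.eventually_le_const (by norm_num)
  obtain ⟨n1, hn1⟩ := Filter.eventually_atTop.1 hlim
  obtain ⟨a1, ha1, h1⟩ := hcrude n1
  refine ⟨D, max a1 (2 * (D + C2)), hD, by positivity, ?_⟩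
  intro n
  induction n with
  | zero => exact fun E h1 h2 => absurd h1 (by omega)
  | succ n ih =>
    intro E h2 h3 k ρ _ K hK hE ho
    rcases Nat.lt_or_ge E n1 with h4 | h4
    · exact PN_mono hD0 h1 (le_max_left _ _) E h2 h4.le k K hK hE ho
    · refine UB_mono (PN_step H hD hD0 hC2.le hCL0 hY hA hL (by positivity) ih h2 h3 k K hK hE ho) ?_
      have hc := c3_nonneg E
      have hb := bE_pos E
      apply mul_le_mul_of_nonneg_right _ hb.le
      apply mul_le_mul_of_nonneg_right _ (by positivity)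
      have h5 := hn1 E h4
      have h6 : 0 ≤ max a1 (2 * (D + C2)) := by positivity
      have h7 := mul_le_mul_of_nonneg_right h5 h6
      have h8 := le_max_right a1 (2 * (D + C2))
      linarith

end Pool.Agent.Helper29.MVN
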