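import Pool.Agent.Helper29.MVN.Disc2
import Pool.Agent.Helper29.MVN.Ind

/-!
Project MV, block N: the asymptotics of the connected good volumes.
-/

namespace Pool.Agent.Helper29.MVN

open Finset Filter Topology Pool.Agent.Helper60.MV

/-- N3 -/
theorem blockN (H : Hyp) (M : ℕ) (δ : ℝ) (hδ : 0 < δ) : ∃ E₀ : ℕ, ∀ {ρ : Type} [Fintype ρ] (K : ρ → ℕ)
    (_ : ∀ i, Odd (K i)) (E : ℕ) (_ : ∑ i, K i = 2 * E) (_ : E₀ ≤ E) (_ : Even E)
    (_ : ones K ≤ M), |Yconn K / (bE E / Real.pi) - 1| ≤ δ := by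
  obtain ⟨D, a, hD, ha, hPN⟩ := exists_PN H M
  obtain ⟨CU, hCU, hU⟩ := H.blockU M
  obtain ⟨CA, hCA, hA⟩ := AAc_bd H
  obtain ⟨CD, hCD, hDi⟩ := disc_le H M
  obtain ⟨CL, hCL, hL'⟩ := Ypoly_bd H 2
  have hL : ∀ m, 1 ≤ m → Ypoly (leg m) ≤ CL * bE (m + 1) := by
    intro m hm
    have h1 := hL' 0 (leg m) (by
      intro b
      cases b
      · exact ⟨0, rfl⟩
      · exact ⟨m, rfl⟩) (m + 1) (by
      rw [Fintype.sum_bool]
      show (2 * m + 1) + 1 = 2 * (m + 1)
      ring) (by omega) (by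
      unfold ones
      exact (card_le_univ _).trans (by simp))
    rw [pow_zero, mul_one] at h1
    exact (le_abs_self _).trans h1
  have hD0 : 0 ≤ D := by linarith
  have hCL0 : 0 ≤ CL := by linarith
  have hpi := Real.pi_pos
  -- the error terms
  have hlim1 : Tendsto (fun E : ℕ => (E : ℝ) ^ (-(1 / 2) : ℝ)) atTop (𝓝 0) :=
    (tendsto_rpow_neg_atTop (by norm_num)).comp tendsto_natCast_atTop_atTop
  have hlim2 : Tendsto (fun E : ℕ => CD / ((E : ℝ) - 1)) atTop (𝓝 0) := by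
    have h1 : Tendsto (fun E : ℕ => (E : ℝ) - 1) atTop atTop :=
      tendsto_atTop_add_const_right _ (-1) tendsto_natCast_atTop_atTop
    exact h1.const_div_atTop CD
  have hlim : Tendsto (fun E : ℕ => Real.pi * (CU * (E : ℝ) ^ (-(1 / 2) : ℝ) +
      CD / ((E : ℝ) - 1) + CA * ((E : ℝ) * (19 / 20) ^ E) +
      60 * CL * D * a * (c3 E / (E : ℝ)))) atTop
      (𝓝 (Real.pi * (CU * 0 + 0 + CA * 0 + 60 * CL * D * a * 0))) :=
    ((((hlim1.const_mul CU).add hlim2).add (geo_tendsto.const_mul CA)).add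
      (c3_div_tendsto.const_mul _)).const_mul _
  have hz : Real.pi * (CU * 0 + 0 + CA * 0 + 60 * CL * D * a * 0) = 0 := by ring
  rw [hz] at hlim
  have hmain : Tendsto (fun E : ℕ => Real.pi * (mainE (2 * E) / bE (2 * E)) - 1) atTop (𝓝 0) := by
    have h1 := (H.mainE_even.const_mul Real.pi).sub_const 1
    have h2 : Real.pi * (1 / Real.pi) - 1 = 0 := by field_simp; ring
    rwa [h2] at h1
  obtain ⟨n1, hn1⟩ := Filter.eventually_atTop.1 (hlim.eventually_le_const (show (0 : ℝ) < δ / 2 by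
    linarith))
  obtain ⟨n2, hn2⟩ := Filter.eventually_atTop.1 ((hmain.abs).eventually_le_const
    (show |(0 : ℝ)| < δ / 2 by rw [abs_zero]; linarith))
  refine ⟨max (max n1 (2 * n2)) 30, ?_⟩
  intro ρ _ K hK E hE hE0 hev ho
  have hE1 : n1 ≤ E := (le_max_left _ _).trans ((le_max_left _ _).trans hE0)
  have hE2 : 2 * n2 ≤ E := (le_max_right _ _).trans ((le_max_left _ _).trans hE0)
  have h30 : 30 ≤ E := (le_max_right _ _).trans hE0
  have hb := bE_pos E
  have hc := card_two hK hE (by omega)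
  -- bounds
  have hlow := H.C_low K hK E hE hc (BB a D K 0 E)
      (fun i m => BB_nonneg ha.le hD0 K 0 E i m)
      (red_UB H (hPN E) (by omega) hev hK hE ho)
  have hup := H.C_up K hK E hE hc
  have hu := hU 0 K hK E hE (by omega) ho
  have hd := hDi K hK E hE h30 ho
  have haa := hA K hK E hE (by omega)
  have hl := leaf_le hK hE hCL0 ha.le hD hL hev 0
  rw [pow_zero, mul_one] at hl hu
  have hu' := abs_le.1 hu
  have hd' := abs_le.1 hd
  have h1 := hn1 E hE1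
  obtain ⟨e, he⟩ := hev
  have h2 := hn2 e (by omega)
  rw [show 2 * e = E by omega] at h2
  have h3 : Yconn K / (bE E / Real.pi) - 1 =
      (Real.pi * (mainE E / bE E) - 1) + Real.pi * ((Yconn K - mainE E) / bE E) := by
    field_simp
    ring
  have hEr : (30 : ℝ) ≤ E := by exact_mod_cast h30
  have hE1' : (0 : ℝ) < (E : ℝ) - 1 := by linarith
  have hc3 := c3_nonneg E
  have h4 : |Real.pi * ((Yconn K - mainE E) / bE E)| ≤ Real.pi * (CU * (E : ℝ) ^ (-(1 / 2) : ℝ) +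
      CD / ((E : ℝ) - 1) + CA * ((E : ℝ) * (19 / 20) ^ E) +
      60 * CL * D * a * (c3 E / (E : ℝ))) := by
    rw [abs_mul, abs_of_pos hpi, abs_div, abs_of_pos hb]
    apply mul_le_mul_of_nonneg_left _ hpi.le
    rw [div_le_iff₀ hb]
    have e1 : 0 ≤ CD / ((E : ℝ) - 1) * bE E := by positivity
    have e2 : 0 ≤ CA * ((E : ℝ) * (19 / 20) ^ E) * bE E := by positivity
    have e3 : 0 ≤ 60 * CL * D * a * (c3 E / (E : ℝ)) * bE E := by positivity
    have e4 : 60 * CL * D * (c3 E / E) * (a * bE E) =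
      60 * CL * D * a * (c3 E / (E : ℝ)) * bE E := by ring
    rw [e4] at hl
    have e5 : (CU * (E : ℝ) ^ (-(1 / 2) : ℝ) +
      CD / ((E : ℝ) - 1) + CA * ((E : ℝ) * (19 / 20) ^ E) +
      60 * CL * D * a * (c3 E / (E : ℝ))) * bE E = CU * (E : ℝ) ^ (-(1 / 2) : ℝ) * bE E +
      CD / ((E : ℝ) - 1) * bE E + CA * ((E : ℝ) * (19 / 20) ^ E) * bE E +
      60 * CL * D * a * (c3 E / (E : ℝ)) * bE E := by ring
    rw [e5, abs_le]
    constructor
    · linarith [hu'.1, hd'.2]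
    · linarith [hu'.2]
  rw [h3]
  refine (abs_add_le _ _).trans ?_
  linarith

end Pool.Agent.Helper29.MVN
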