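import Pool.Agent.Helper60.MV.DefsC

/-!
Project MV, block N: the statements of the other blocks which are used (word for word as in
`Pool.Agent.Helper60.MV.Iface`).
-/

namespace Pool.Agent.Helper29.MVN

open Finset MeasureTheory Filter Topology Pool.Agent.Helper60.MV

structure Hyp : Prop where
  blockU : ∀ (M : ℕ), ∃ C : ℝ, 0 < C ∧ ∀ (k : ℕ) {ρ : Type} [Fintype ρ] (K : ρ → ℕ)
    (_ : ∀ i, Odd (K i)) (E : ℕ) (_ : ∑ i, K i = 2 * E) (_ : 1 ≤ E) (_ : ones K ≤ M + k),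
    |Ypoly K - mainE E| ≤ C * (C * (E : ℝ) ^ (1 / 3 : ℝ)) ^ k * (E : ℝ) ^ (-(1 / 2) : ℝ) * bE E
  mainE_even : Tendsto (fun E : ℕ => mainE (2 * E) / bE (2 * E)) atTop (𝓝 (1 / Real.pi))
  mainE_odd : ∀ (E : ℕ) (_ : Odd E), mainE E = 0
  C_up : ∀ {ρ : Type} [Fintype ρ] (K : ρ → ℕ) (_ : ∀ i, Odd (K i)) (E : ℕ)
    (_ : ∑ i, K i = 2 * E) (_ : 2 ≤ Fintype.card ρ), Yconn K ≤ Ypoly K
  C_rec : ∀ {ρ : Type} [Fintype ρ] (K : ρ → ℕ) (_ : ∀ i, Odd (K i)) (E : ℕ)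
    (_ : ∑ i, K i = 2 * E) (_ : 2 ≤ Fintype.card ρ) (B : ρ → ℕ → ℝ) (_ : ∀ i m, 0 ≤ B i m)
    (_ : ∀ i m, 1 ≤ m → 2 * m + 2 < K i → UB (red K i m) (B i m)),
    UB K (Ypoly K + AAc K + leafSum K B)
  C_low : ∀ {ρ : Type} [Fintype ρ] (K : ρ → ℕ) (_ : ∀ i, Odd (K i)) (E : ℕ)
    (_ : ∑ i, K i = 2 * E) (_ : 2 ≤ Fintype.card ρ) (B : ρ → ℕ → ℝ) (_ : ∀ i m, 0 ≤ B i m)
    (_ : ∀ i m, 1 ≤ m → 2 * m + 2 < K i → UB (red K i m) (B i m)),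
    Ypoly K - disc K - AAc K - leafSum K B ≤ Yconn K
  UB_odd : ∀ {ρ : Type} [Fintype ρ] (K : ρ → ℕ) (_ : ∀ i, Odd (K i)) (E : ℕ)
    (_ : ∑ i, K i = 2 * E) (_ : Odd E), UB K 0
  AAc_le : ∃ C : ℝ, 0 < C ∧ ∀ {ρ : Type} [Fintype ρ] (K : ρ → ℕ) (_ : ∀ i, Odd (K i))
    (E : ℕ) (_ : ∑ i, K i = 2 * E) (_ : 1 ≤ E), AAc K ≤ C * (19 / 10) ^ E * (E.factorial : ℝ)

end Pool.Agent.Helper29.MVN
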