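import Pool.Agent.Helper29.MVN.Bd

/-!
Project MV, block N: the leaf sum.
-/

namespace Pool.Agent.Helper29.MVN

open Finset Filter Topology Pool.Agent.Helper60.MV

/-! ### factorials -/

theorem fac1 : ∀ a b : ℕ, (a + 1).factorial * (b + 1).factorial ≤ (a + b + 1).factorial := by
  intro a b
  induction b with
  | zero => simp
  | succ b ih =>
    have e1 : (b + 1 + 1).factorial = (b + 2) * (b + 1).factorial := Nat.factorial_succ _
    have e2 : (a + (b + 1) + 1).factorial = (a + b + 2) * (a + b + 1).factorial :=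
      Nat.factorial_succ _
    rw [e1, e2]
    calc (a + 1).factorial * ((b + 2) * (b + 1).factorial)
        = (b + 2) * ((a + 1).factorial * (b + 1).factorial) := by ring
      _ ≤ (b + 2) * (a + b + 1).factorial := Nat.mul_le_mul_left _ ih
      _ ≤ (a + b + 2) * (a + b + 1).factorial := Nat.mul_le_mul_right _ (by omega)

theorem fac2 : ∀ a b : ℕ, (a + 2).factorial * (b + 2).factorial ≤ 2 * (a + b + 2).factorial := by
  intro a b
  induction b with
  | zero =>
    have : (0 + 2).factorial = 2 := rfl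
    rw [this, add_zero, mul_comm]
  | succ b ih =>
    have e1 : (b + 1 + 2).factorial = (b + 3) * (b + 2).factorial := Nat.factorial_succ _
    have e2 : (a + (b + 1) + 2).factorial = (a + b + 3) * (a + b + 2).factorial :=
      Nat.factorial_succ _
    rw [e1, e2]
    calc (a + 2).factorial * ((b + 3) * (b + 2).factorial)
        = (b + 3) * ((a + 2).factorial * (b + 2).factorial) := by ring
      _ ≤ (b + 3) * (2 * (a + b + 2).factorial) := Nat.mul_le_mul_left _ ih
      _ ≤ 2 * ((a + b + 3) * (a + b + 2).factorial) := by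
        have : (b + 3) * (2 * (a + b + 2).factorial) = 2 * ((b + 3) * (a + b + 2).factorial) := by
          ring
        rw [this]
        exact Nat.mul_le_mul_left _ (Nat.mul_le_mul_right _ (by omega))

/-- for `1 ≤ m ≤ E - 3` -/
theorem fac_a {E m : ℕ} (h1 : 1 ≤ m) (h2 : m + 3 ≤ E) :
    m.factorial * (E - m - 2).factorial ≤ (E - 3).factorial := by
  obtain ⟨a, rfl⟩ : ∃ a, m = a + 1 := ⟨m - 1, by omega⟩
  obtain ⟨b, hb⟩ : ∃ b, E - (a + 1) - 2 = b + 1 := ⟨E - (a + 1) - 3, by omega⟩
  rw [hb]
  have := fac1 a b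
  rwa [show a + b + 1 = E - 3 by omega] at this

theorem fac_sum {E : ℕ} (hE : 4 ≤ E) :
    ∑ m ∈ Finset.Icc 1 (E - 3), m.factorial * (E - m - 2).factorial ≤ 4 * (E - 3).factorial := by
  have hpt : ∀ m ∈ Finset.Icc 1 (E - 3), m.factorial * (E - m - 2).factorial ≤
      (if m = 1 then (E - 3).factorial else 0) + (if m = E - 3 then (E - 3).factorial else 0)
        + 2 * (E - 4).factorial := by
    intro m hm
    rw [Finset.mem_Icc] at hm
    have h0 := fac_a (E := E) hm.1 (by omega)
    by_cases h1 : m = 1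
    · rw [if_pos h1]; omega
    · by_cases h2 : m = E - 3
      · rw [if_pos h2]; omega
      · rw [if_neg h1, if_neg h2]
        obtain ⟨a, rfl⟩ : ∃ a, m = a + 2 := ⟨m - 2, by omega⟩
        obtain ⟨b, hb⟩ : ∃ b, E - (a + 2) - 2 = b + 2 := ⟨E - (a + 2) - 4, by omega⟩
        rw [hb]
        have := fac2 a b
        rw [show a + b + 2 = E - 4 by omega] at this
        omega
  refine (Finset.sum_le_sum hpt).trans ?_
  rw [Finset.sum_add_distrib, Finset.sum_add_distrib, Finset.sum_const, Finset.sum_ite_eq',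
    Finset.sum_ite_eq', Nat.card_Icc, smul_eq_mul]
  have e1 : (E - 3).factorial = (E - 3) * (E - 4).factorial := by
    obtain ⟨n, rfl⟩ : ∃ n, E = n + 4 := ⟨E - 4, by omega⟩
    rw [show n + 4 - 3 = n + 1 by omega, show n + 4 - 4 = n by omega, Nat.factorial_succ]
  have e2 : (E - 3 + 1 - 1) * (2 * (E - 4).factorial) = 2 * (E - 3).factorial := by
    rw [e1, show E - 3 + 1 - 1 = E - 3 by omega]; ring
  rw [e2]
  split_ifs <;> omega

/-! ### the bounds `B` of the reduced types -/

/-- the bound used for the reduced types -/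
noncomputable def BB {ρ : Type} (A D : ℝ) (K : ρ → ℕ) (k E : ℕ) (i : ρ) (m : ℕ) : ℝ :=
  if Even (E - (m + 1)) then
    A * (D * c3 (E - (m + 1))) ^ (k + if K i = 2 * m + 3 then 1 else 0) * bE (E - (m + 1))
  else 0

theorem BB_nonneg {ρ : Type} {A D : ℝ} (hA : 0 ≤ A) (hD : 0 ≤ D) (K : ρ → ℕ) (k E : ℕ) (i : ρ)
    (m : ℕ) : 0 ≤ BB A D K k E i m := by
  unfold BB
  have h1 := c3_nonneg (E - (m + 1))
  have h2 := bE_pos (E - (m + 1))
  split_ifs <;> positivity

section

variable {ρ : Type} [Fintype ρ] {K : ρ → ℕ} {E : ℕ}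

theorem K_le (hK : ∀ i, Odd (K i)) (hE : ∑ i, K i = 2 * E) (i : ρ) : K i + 1 ≤ 2 * E := by
  classical
  have h1 : K i + ∑ j ∈ univ.erase i, K j = 2 * E := by
    rw [← hE, Finset.add_sum_erase _ _ (mem_univ i)]
  rcases (univ.erase i : Finset ρ).eq_empty_or_nonempty with h2 | ⟨j, hj⟩
  · rw [h2, Finset.sum_empty, add_zero] at h1
    have := hK i
    rw [h1] at this
    exact absurd this (by rw [Nat.not_odd_iff_even]; exact even_two_mul E)
  · have h3 : K j ≤ ∑ j ∈ univ.erase i, K j := Finset.single_le_sum (fun _ _ => Nat.zero_le _) hj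
    have h4 := (hK j).pos
    omega

theorem m_le (hK : ∀ i, Odd (K i)) (hE : ∑ i, K i = 2 * E) {i : ρ} {m : ℕ}
    (h : 2 * m + 2 < K i) : m + 2 ≤ E := by
  have h1 := K_le hK hE i
  have h2 := hK i
  obtain ⟨c, hc⟩ := h2
  omega

end

/-- one term -/
theorem leaf_term {ρ : Type} [Fintype ρ] {K : ρ → ℕ} {E : ℕ} (hK : ∀ i, Odd (K i))
    (hE : ∑ i, K i = 2 * E) {CL A D : ℝ} (hCL : 0 ≤ CL) (hA : 0 ≤ A)
    (hD : 1 ≤ D) (hY : ∀ m, 1 ≤ m → Ypoly (leg m) ≤ CL * bE (m + 1)) (hev : Even E) (k : ℕ)
    {i : ρ} {m : ℕ} (h1 : 1 ≤ m) (h2 : 2 * m + 2 < K i) :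
    (K i : ℝ) * (2 * Ypoly (leg m)) * BB A D K k E i m ≤
      (if m ∈ Finset.Icc 1 (E - 3) then
        (K i : ℝ) * (2 * CL * A * (D * c3 E) ^ k * 2 ^ E) *
        (((m.factorial * (E - m - 2).factorial : ℕ) : ℝ) *
          (if K i = 2 * m + 3 then D * c3 E else 1)) else 0) := by
  have hm := m_le hK hE h2
  unfold BB
  by_cases he : Even (E - (m + 1))
  · rw [if_pos he]
    have h3 : m + 3 ≤ E := by
      obtain ⟨a, ha⟩ := he
      omega
    have hmem : m ∈ Finset.Icc 1 (E - 3) := by rw [Finset.mem_Icc]; omega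
    rw [if_pos hmem]
    have hE' : E - (m + 1) ≤ E := Nat.sub_le _ _
    have hc0 := c3_nonneg E
    have hD0 : 0 ≤ D := by linarith
    have hc := c3_mono hE'
    have hc1 : 1 ≤ c3 (E - (m + 1)) := one_le_c3 (by omega)
    have hb : bE (m + 1) * bE (E - (m + 1)) =
        2 ^ E * ((m.factorial * (E - m - 2).factorial : ℕ) : ℝ) := by
      unfold bE
      rw [Nat.add_sub_cancel, show E - (m + 1) - 1 = E - m - 2 by omega]
      push_cast
      have : (2 : ℝ) ^ E = 2 ^ (m + 1) * 2 ^ (E - (m + 1)) := by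
        rw [← pow_add]; congr 1; omega
      rw [this]; ring
    have hpow : (D * c3 (E - (m + 1))) ^ (k + if K i = 2 * m + 3 then 1 else 0) ≤
        (D * c3 E) ^ k * (if K i = 2 * m + 3 then D * c3 E else 1) := by
      have hle : D * c3 (E - (m + 1)) ≤ D * c3 E := mul_le_mul_of_nonneg_left hc (by linarith)
      have h0 : 0 ≤ D * c3 (E - (m + 1)) := by nlinarith
      split_ifs
      · rw [pow_succ]
        exact mul_le_mul (pow_le_pow_left₀ h0 hle k) hle h0 (by positivity)
      · rw [add_zero, mul_one]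
        exact pow_le_pow_left₀ h0 hle k
    have hbp := bE_pos (E - (m + 1))
    have hbp2 := bE_pos (m + 1)
    have hKi : (0 : ℝ) ≤ (K i : ℝ) := Nat.cast_nonneg _
    have hP : 0 ≤ (D * c3 (E - (m + 1))) ^ (k + if K i = 2 * m + 3 then 1 else 0) := by
      have : 0 ≤ D * c3 (E - (m + 1)) := by nlinarith
      positivity
    calc (K i : ℝ) * (2 * Ypoly (leg m)) *
          (A * (D * c3 (E - (m + 1))) ^ (k + if K i = 2 * m + 3 then 1 else 0)
            * bE (E - (m + 1)))
        ≤ (K i : ℝ) * (2 * (CL * bE (m + 1))) *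
          (A * ((D * c3 E) ^ k * (if K i = 2 * m + 3 then D * c3 E else 1))
            * bE (E - (m + 1))) := by
          apply mul_le_mul
          · apply mul_le_mul_of_nonneg_left _ hKi
            have := hY m h1
            linarith
          · apply mul_le_mul_of_nonneg_right _ hbp.le
            exact mul_le_mul_of_nonneg_left hpow hA
          · positivity
          · positivity
      _ = (K i : ℝ) * (2 * CL * A * (D * c3 E) ^ k) * (if K i = 2 * m + 3 then D * c3 E else 1) *
          (bE (m + 1) * bE (E - (m + 1))) := by ring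
      _ = (K i : ℝ) * (2 * CL * A * (D * c3 E) ^ k * 2 ^ E) *
        (((m.factorial * (E - m - 2).factorial : ℕ) : ℝ) *
          (if K i = 2 * m + 3 then D * c3 E else 1)) := by
          rw [hb]; ring
  · rw [if_neg he, mul_zero]
    have hc0 : 0 ≤ c3 E := c3_nonneg E
    have hD0 : 0 ≤ D := by linarith
    split_ifs <;> positivity

theorem leaf_le {ρ : Type} [Fintype ρ] {K : ρ → ℕ} {E : ℕ} (hK : ∀ i, Odd (K i))
    (hE : ∑ i, K i = 2 * E) {CL A D : ℝ} (hCL : 0 ≤ CL) (hA : 0 ≤ A)
    (hD : 1 ≤ D) (hY : ∀ m, 1 ≤ m → Ypoly (leg m) ≤ CL * bE (m + 1)) (hev : Even E) (k : ℕ) :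
    leafSum K (BB A D K k E) ≤
      (60 * CL * D * (c3 E / E)) * (A * (D * c3 E) ^ k * bE E) := by
  have hc3 := c3_nonneg E
  have hbE := bE_pos E
  have hD0 : 0 ≤ D := by linarith
  rcases Nat.lt_or_ge E 4 with hE4 | hE4
  · -- no leaves
    have h0 : leafSum K (BB A D K k E) = 0 := by
      unfold leafSum
      apply Finset.sum_eq_zero
      intro i _
      apply Finset.sum_eq_zero
      intro m hm
      exfalso
      rw [Finset.mem_filter] at hm
      have := K_le hK hE i
      obtain ⟨a, ha⟩ := hev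
      omega
    rw [h0]
    positivity
  · have h1 : leafSum K (BB A D K k E) ≤ ∑ i : ρ, (K i : ℝ) *
        (2 * CL * A * (D * c3 E) ^ k * 2 ^ E) * ((4 + D * c3 E) * ((E - 3).factorial : ℝ)) := by
      unfold leafSum
      apply Finset.sum_le_sum
      intro i _
      have hterm : ∀ m ∈ (Finset.range (K i)).filter (fun m => 1 ≤ m ∧ 2 * m + 2 < K i),
          (K i : ℝ) * (2 * Ypoly (leg m)) * BB A D K k E i m ≤
          (if m ∈ Finset.Icc 1 (E - 3) then
            (K i : ℝ) * (2 * CL * A * (D * c3 E) ^ k * 2 ^ E) *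
            (((m.factorial * (E - m - 2).factorial : ℕ) : ℝ) *
              (if K i = 2 * m + 3 then D * c3 E else 1)) else 0) := by
        intro m hm
        rw [Finset.mem_filter] at hm
        exact leaf_term hK hE hCL hA hD hY hev k hm.2.1 hm.2.2
      refine (Finset.sum_le_sum hterm).trans ?_
      rw [← Finset.sum_filter]
      have hnn : ∀ m, 0 ≤ (K i : ℝ) * (2 * CL * A * (D * c3 E) ^ k * 2 ^ E) *
            (((m.factorial * (E - m - 2).factorial : ℕ) : ℝ) *
              (if K i = 2 * m + 3 then D * c3 E else 1)) := by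
        intro m
        have : 0 ≤ (if K i = 2 * m + 3 then D * c3 E else 1) := by
          split_ifs
          · positivity
          · norm_num
        positivity
      refine (Finset.sum_le_sum_of_subset_of_nonneg (t := Finset.Icc 1 (E - 3)) ?_ ?_).trans ?_
      · intro m hm
        exact (Finset.mem_filter.1 hm).2
      · intro m _ _
        exact hnn m
      · rw [← Finset.mul_sum]
        apply mul_le_mul_of_nonneg_left
        · -- the sum over `m`
          have hpt : ∀ m ∈ Finset.Icc 1 (E - 3),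
              (((m.factorial * (E - m - 2).factorial : ℕ) : ℝ) *
                (if K i = 2 * m + 3 then D * c3 E else 1)) ≤
              ((m.factorial * (E - m - 2).factorial : ℕ) : ℝ) +
                (if m = (K i - 3) / 2 then D * c3 E * ((E - 3).factorial : ℝ) else 0) := by
            intro m hm
            rw [Finset.mem_Icc] at hm
            have h5 : ((m.factorial * (E - m - 2).factorial : ℕ) : ℝ) ≤ ((E - 3).factorial : ℝ) := by
              exact_mod_cast fac_a hm.1 (by omega)
            have h6 : (0 : ℝ) ≤ ((m.factorial * (E - m - 2).factorial : ℕ) : ℝ) := Nat.cast_nonneg _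
            by_cases h7 : K i = 2 * m + 3
            · rw [if_pos h7, if_pos (by omega)]
              have : 0 ≤ D * c3 E := by positivity
              nlinarith
            · rw [if_neg h7, mul_one]
              have : (0 : ℝ) ≤ (if m = (K i - 3) / 2 then D * c3 E * ((E - 3).factorial : ℝ) else 0) := by
                split_ifs
                · positivity
                · norm_num
              linarith
          refine (Finset.sum_le_sum hpt).trans ?_
          rw [Finset.sum_add_distrib, Finset.sum_ite_eq', ← Nat.cast_sum]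
          have h8 : ((∑ m ∈ Finset.Icc 1 (E - 3), m.factorial * (E - m - 2).factorial : ℕ) : ℝ)
              ≤ 4 * ((E - 3).factorial : ℝ) := by exact_mod_cast fac_sum hE4
          have h9 : (if (K i - 3) / 2 ∈ Finset.Icc 1 (E - 3) then
              D * c3 E * ((E - 3).factorial : ℝ) else 0) ≤ D * c3 E * ((E - 3).factorial : ℝ) := by
            split_ifs
            · exact le_refl _
            · positivity
          nlinarith
        · positivity
    refine h1.trans ?_
    rw [← Finset.sum_mul, ← Finset.sum_mul, ← Nat.cast_sum, hE]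
    -- numbers
    obtain ⟨n, hn⟩ : ∃ n, E = n + 4 := ⟨E - 4, by omega⟩
    have hfac : ((E - 1).factorial : ℝ) = ((E : ℝ) - 1) * ((E : ℝ) - 2) * ((E - 3).factorial : ℝ) := by
      rw [hn, show n + 4 - 1 = (n + 1) + 1 + 1 by omega, show n + 4 - 3 = n + 1 by omega,
        Nat.factorial_succ, Nat.factorial_succ]
      push_cast
      ring
    have hx : (4 : ℝ) ≤ (E : ℝ) := by exact_mod_cast hE4
    unfold bE
    rw [hfac]
    have hc1 : 1 ≤ c3 E := one_le_c3 (by omega)
    have hDc : 1 ≤ D * c3 E := by nlinarith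
    have hF : (0 : ℝ) < ((E - 3).factorial : ℝ) := by exact_mod_cast Nat.factorial_pos _
    have hxne : (E : ℝ) ≠ 0 := by linarith
    have hkey : 2 * (E : ℝ) * 2 * (4 + D * c3 E) ≤
        60 * (D * c3 E / E) * (((E : ℝ) - 1) * ((E : ℝ) - 2)) := by
      have h2 : 60 * (D * c3 E / E) * (((E : ℝ) - 1) * ((E : ℝ) - 2)) =
          60 * (D * c3 E) * ((((E : ℝ) - 1) * ((E : ℝ) - 2)) / E) := by ring
      rw [h2]
      have h3 : (3 / 8 : ℝ) * E ≤ (((E : ℝ) - 1) * ((E : ℝ) - 2)) / E := by
        rw [le_div_iff₀ (by linarith)]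
        nlinarith
      have h4 : 2 * (E : ℝ) * 2 * (4 + D * c3 E) ≤ 20 * (E : ℝ) * (D * c3 E) := by nlinarith
      have h5 : 60 * (D * c3 E) * ((3 / 8 : ℝ) * E) ≤
          60 * (D * c3 E) * ((((E : ℝ) - 1) * ((E : ℝ) - 2)) / E) :=
        mul_le_mul_of_nonneg_left h3 (by positivity)
      nlinarith
    have hG : 0 ≤ CL * A * (D * c3 E) ^ k * 2 ^ E * ((E - 3).factorial : ℝ) := by positivity
    calc ((2 * E : ℕ) : ℝ) * (2 * CL * A * (D * c3 E) ^ k * 2 ^ E) *
          ((4 + D * c3 E) * ((E - 3).factorial : ℝ))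
        = (2 * (E : ℝ) * 2 * (4 + D * c3 E)) *
          (CL * A * (D * c3 E) ^ k * 2 ^ E * ((E - 3).factorial : ℝ)) := by push_cast; ring
      _ ≤ (60 * (D * c3 E / E) * (((E : ℝ) - 1) * ((E : ℝ) - 2))) *
          (CL * A * (D * c3 E) ^ k * 2 ^ E * ((E - 3).factorial : ℝ)) :=
          mul_le_mul_of_nonneg_right hkey hG
      _ = 60 * CL * D * (c3 E / E) * (A * (D * c3 E) ^ k *
          (2 ^ E * (((E : ℝ) - 1) * ((E : ℝ) - 2) * ((E - 3).factorial : ℝ)))) := by ring

end Pool.Agent.Helper29.MVN
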